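import Pool.Agent.Work.MP_c109c8_lc.Bad

/-!
# The adversary argument
-/

set_option autoImplicit false
set_option linter.unusedSectionVars false

open Classical

namespace Pool.Agent.Work.MP_c109c8_lc

/-- A DNF: a finite set of terms, each a finite set of literals. -/
abbrev DNF (V : Type) : Type := Finset (Finset (V × Bool))

/-- The DNF `D` is true under the truth assignment `a`: all the literals of some term are true. -/
def DHolds {V : Type} (a : V → Bool) (D : DNF V) : Prop :=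
  ∃ τ ∈ D, ∀ l ∈ τ, a l.1 = l.2

variable {P H : Type} [Fintype P] [Fintype H]

/-- the assignment of a matching -/
noncomputable def asg (σ : Finset (P × H)) : P × H → Bool := fun v => decide (v ∈ σ)

/-- a matching forces a literal -/
def SatL (π : Finset (P × H)) (l : (P × H) × Bool) : Prop :=
  (l.2 = true ∧ l.1 ∈ π) ∨ (l.2 = false ∧ ∃ e ∈ π, e.1 = l.1.1 ∧ e.2 ≠ l.1.2)

/-- the small matchings forcing a term of a DNF -/
noncomputable def fam (k : ℕ) (D : DNF (P × H)) : List (Finset (P × H)) :=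
  (Finset.univ.filter fun π : Finset (P × H) =>
    IsM π ∧ π.card ≤ k ∧ ∃ τ ∈ D, ∀ l ∈ τ, SatL π l).toList

lemma mem_fam {k : ℕ} {D : DNF (P × H)} {π : Finset (P × H)} :
    π ∈ fam k D ↔ IsM π ∧ π.card ≤ k ∧ ∃ τ ∈ D, ∀ l ∈ τ, SatL π l := by
  simp [fam]

/-- (Tr) -/
lemma holds_of_fam {k : ℕ} {D : DNF (P × H)} {π σ : Finset (P × H)} (h : π ∈ fam k D)
    (hs : π ⊆ σ) (hσ : IsM σ) : DHolds (asg σ) D := by
  rw [mem_fam] at h
  obtain ⟨-, -, τ, hτ, h⟩ := h
  refine ⟨τ, hτ, fun l hl => ?_⟩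
  rcases h l hl with ⟨h1, h2⟩ | ⟨h1, e, he, h2, h3⟩
  · rw [h1, asg]
    exact decide_eq_true (hs h2)
  · rw [h1, asg]
    refine decide_eq_false fun h4 => ?_
    have := hσ e (hs he) _ h4 (Or.inl h2)
    exact h3 (by rw [this])

/-- (F) -/
lemma not_holds_of_none {k : ℕ} {D : DNF (P × H)} {σ σ' : Finset (P × H)}
    (hD : ∀ τ ∈ D, τ.card ≤ k) (hn : fstC (fam k D) σ = none) (hs : σ ⊆ σ') (hσ' : IsM σ')
    (hr : σ'.card + 2 * k + 1 ≤ Fintype.card H) : ¬ DHolds (asg σ') D := by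
  rintro ⟨τ, hτ, hl⟩
  rw [fstC_none] at hn
  have key : ∀ I : Finset P, I.card ≤ k → ∃ β, σ' ⊆ β ∧ IsM β ∧ β.card ≤ σ'.card + I.card ∧
      (∀ i ∈ I, ∃ e ∈ β, e.1 = i) ∧ ∀ e ∈ β, (e, false) ∉ τ := by
    intro I
    induction I using Finset.induction_on with
    | empty =>
      intro _
      refine ⟨σ', subset_rfl, hσ', by simp, by simp, fun e he h => ?_⟩
      have := hl _ h
      rw [asg] at this
      simp only [decide_eq_false_iff_not] at this
      exact this he
    | insert i I hi ih =>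
      intro hI
      rw [Finset.card_insert_of_notMem hi] at hI
      obtain ⟨β, h1, h2, h3, h4, h5⟩ := ih (by omega)
      set B : Finset H := Finset.univ.filter fun j => (((i, j), false) : (P × H) × Bool) ∈ τ with hB
      have hBc : B.card ≤ k := by
        refine le_trans (Finset.card_le_card_of_injOn (t := τ) (fun j => ((i, j), false)) ?_ ?_)
          (hD τ hτ)
        · intro j hj
          exact (Finset.mem_filter.1 hj).2
        · intro j _ j' _ hjj
          simpa using hjj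
      obtain ⟨β', k1, k2, k3, k4, k5⟩ := cover_pigeon h2 i B (by omega)
      refine ⟨β', h1.trans k1, k2, ?_, ?_, ?_⟩
      · rw [Finset.card_insert_of_notMem hi]; omega
      · intro i' hi'
        rw [Finset.mem_insert] at hi'
        rcases hi' with rfl | hi'
        · exact k3
        · obtain ⟨e, he, he'⟩ := h4 i' hi'
          exact ⟨e, k1 he, he'⟩
      · intro e he h6
        rcases k5 e he with h7 | ⟨h7, h8⟩
        · exact h5 e h7 h6
        · apply h8
          rw [hB, Finset.mem_filter]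
          refine ⟨Finset.mem_univ _, ?_⟩
          rw [← h7]
          exact h6
  obtain ⟨β, h1, h2, h3, h4, h5⟩ := key (τ.image fun l => l.1.1) (Finset.card_image_le.trans (hD τ hτ))
  set π := β.filter fun e => e.1 ∈ τ.image fun l => l.1.1 with hπ
  have hπβ : π ⊆ β := Finset.filter_subset _ _
  refine hn π ?_ (h2.mono (Finset.union_subset (hs.trans h1) hπβ))
  rw [mem_fam]
  refine ⟨h2.mono hπβ, ?_, τ, hτ, ?_⟩
  · refine le_trans (Finset.card_le_card_of_injOn (t := τ.image fun l => l.1.1) Prod.fst ?_ ?_)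
      (Finset.card_image_le.trans (hD τ hτ))
    · intro e he
      exact (Finset.mem_filter.1 he).2
    · intro e he f hf hef
      exact h2 e (hπβ he) f (hπβ hf) (Or.inl hef)
  · intro l hlτ
    have hlI : l.1.1 ∈ τ.image fun l => l.1.1 := Finset.mem_image.2 ⟨l, hlτ, rfl⟩
    rcases hb : l.2 with _ | _
    · right
      refine ⟨hb, ?_⟩
      obtain ⟨e, he, he'⟩ := h4 _ hlI
      refine ⟨e, Finset.mem_filter.2 ⟨he, by rw [he']; exact hlI⟩, he', fun h6 => ?_⟩
      apply h5 e he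
      have : (e, false) = l := by
        rw [← hb]
        exact Prod.ext (Prod.ext he' h6) rfl
      rw [this]
      exact hlτ
    · left
      refine ⟨hb, Finset.mem_filter.2 ⟨h1 ?_, hlI⟩⟩
      have := hl l hlτ
      rw [hb, asg] at this
      exact of_decide_eq_true this

/-- Deciding a list of matchings, compatibly with a given matching. -/
lemma decide_lemma {L : List (Finset (P × H))} {k : ℕ} (hPH : Fintype.card H ≤ Fintype.card P)
    (hL : ∀ π ∈ L, π.card ≤ k) {θ : Finset (P × H)} (m : ℕ) :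
    ∀ σ : Finset (P × H), IsM (σ ∪ θ) → (∀ j μ, Enc L j σ μ → j < m) →
      (σ ∪ θ).card + 2 * m + 2 * k ≤ Fintype.card H →
      ∃ σ', σ ⊆ σ' ∧ IsM (σ' ∪ θ) ∧ (σ' ∪ θ).card ≤ (σ ∪ θ).card + 2 * m ∧
        σ'.card ≤ σ.card + 2 * m ∧ (fstC L σ' = none ∨ ∃ π ∈ L, π ⊆ σ') := by
  induction m using Nat.strong_induction_on with
  | _ m ih =>
  intro σ h1 h2 h3
  rcases hf : fstC L σ with _ | π
  · exact ⟨σ, subset_rfl, h1, by omega, by omega, Or.inl hf⟩
  obtain ⟨hπL, hπσ⟩ := fstC_some hf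
  by_cases hsub : π ⊆ σ
  · exact ⟨σ, subset_rfl, h1, by omega, by omega, Or.inr ⟨π, hπL, hsub⟩⟩
  have hne : (π \ σ).Nonempty := by
    rw [Finset.sdiff_nonempty]; exact hsub
  have hA : IsM (σ ∪ (π \ σ)) := hπσ.mono (by rw [Finset.union_sdiff_self_eq_union])
  have hAk : (π \ σ).card ≤ k := (Finset.card_le_card Finset.sdiff_subset).trans (hL π hπL)
  obtain ⟨β, b1, b2, b3, b4⟩ := cover_all h1 (π \ σ) (by omega) (by omega)
  set ν := (β \ σ).filter fun e => ∃ a ∈ π \ σ, e.1 = a.1 ∨ e.2 = a.2 with hν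
  have hνβ : ν ⊆ β := (Finset.filter_subset _ _).trans Finset.sdiff_subset
  have hσβ : σ ⊆ β := Finset.subset_union_left.trans b1
  have hθβ : θ ⊆ β := Finset.subset_union_right.trans b1
  have hans : Ans σ (π \ σ) ν := by
    refine ⟨b2.mono (Finset.union_subset hσβ hνβ), ?_, ?_, ?_⟩
    · rw [Finset.disjoint_left]
      intro e he he'
      exact (Finset.mem_sdiff.1 (Finset.mem_filter.1 he').1).2 he
    · intro a ha
      obtain ⟨⟨e, he, he'⟩, ⟨f, hf, hf'⟩⟩ := b3 a ha
      have haσ : a ∉ σ := (Finset.mem_sdiff.1 ha).2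
      refine ⟨⟨e, ?_, he'⟩, ⟨f, ?_, hf'⟩⟩
      · refine Finset.mem_filter.2 ⟨Finset.mem_sdiff.2 ⟨he, fun heσ => ?_⟩, a, ha, Or.inl he'⟩
        exact (not_touch hA heσ ha haσ).1 he'
      · refine Finset.mem_filter.2 ⟨Finset.mem_sdiff.2 ⟨hf, fun hfσ => ?_⟩, a, ha, Or.inr hf'⟩
        exact (not_touch hA hfσ ha haσ).2 hf'
    · intro e he
      exact (Finset.mem_filter.1 he).2
  have hAm : (π \ σ).card < m := by
    have := h2 _ _ (Enc.step hf hne hans (Enc.nil _))
    omega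
  have hsubβ : (σ ∪ ν) ∪ θ ⊆ β := Finset.union_subset (Finset.union_subset hσβ hνβ) hθβ
  have hc1 : ((σ ∪ ν) ∪ θ).card ≤ β.card := Finset.card_le_card hsubβ
  have hc2 : (σ ∪ ν).card ≤ σ.card + ν.card := Finset.card_union_le _ _
  have hc3 := hans.card_le
  obtain ⟨σ', s1, s2, s3, s4, s5⟩ := ih (m - (π \ σ).card) (by have := hne.card_pos; omega)
    (σ ∪ ν) (b2.mono hsubβ) (fun j μ hE => by
      have := h2 _ _ (Enc.step hf hne hans hE)
      omega) (by omega)
  exact ⟨σ', Finset.subset_union_left.trans s1, s2, by omega, by omega, s5⟩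

/-- Matchings of every size exist. -/
lemma exists_matching (hPH : Fintype.card H ≤ Fintype.card P) (s : ℕ) (hs : s ≤ Fintype.card H) :
    ∃ σ : Finset (P × H), IsM σ ∧ σ.card = s := by
  induction s with
  | zero => exact ⟨∅, isM_empty, rfl⟩
  | succ s ih =>
    obtain ⟨σ, h1, h2⟩ := ih (by omega)
    have c1 := card_freeP h1
    have c2 := card_freeH h1
    obtain ⟨i, hi⟩ : (freeP σ).Nonempty := by rw [← Finset.card_pos]; omega
    obtain ⟨j, hj⟩ : (freeH σ).Nonempty := by rw [← Finset.card_pos]; omega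
    refine ⟨insert (i, j) σ, isM_insert h1 hi hj, ?_⟩
    rw [Finset.card_insert_of_notMem, h2]
    intro h
    exact (mem_freeP.1 hi) _ h rfl

/-- deciding several DNFs one after the other -/
lemma decide_many {ι : Type} {D : ι → DNF (P × H)} {k s : ℕ} {ρ σ : Finset (P × H)}
    (hPH : Fintype.card H ≤ Fintype.card P)
    (hgood : ∀ i, ∀ j μ, Enc (fam k (D i)) j ρ μ → j < s)
    (hkill : ∀ i, ∀ σ', ρ ⊆ σ' → IsM σ' → σ'.card ≤ ρ.card + 2 * s → fstC (fam k (D i)) σ' ≠ none)
    (hρσ : ρ ⊆ σ) (hσ : IsM σ) (I : Finset ι)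
    (hroom : σ.card + 2 * s * I.card + 2 * k ≤ Fintype.card H) :
    ∃ θ, σ ⊆ θ ∧ IsM θ ∧ θ.card ≤ σ.card + 2 * s * I.card ∧
      ∀ i ∈ I, ∃ π ∈ fam k (D i), π ⊆ θ := by
  induction I using Finset.induction_on with
  | empty => exact ⟨σ, subset_rfl, hσ, by simp, by simp⟩
  | insert i I hi ih =>
    rw [Finset.card_insert_of_notMem hi] at hroom ⊢
    obtain ⟨θ, h1, h2, h3, h4⟩ := ih (by nlinarith)
    have hρθ : ρ ∪ θ = θ := Finset.union_eq_right.2 (hρσ.trans h1)
    obtain ⟨σ', s1, s2, s3, s4, s5⟩ := decide_lemma hPH (k := k)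
      (fun π hπ => (mem_fam.1 hπ).2.1) (θ := θ) s ρ (by rw [hρθ]; exact h2) (hgood i)
      (by rw [hρθ]; nlinarith)
    have hσ'M : IsM σ' := s2.mono Finset.subset_union_left
    rw [hρθ] at s3
    refine ⟨σ' ∪ θ, h1.trans Finset.subset_union_right, s2, by nlinarith, ?_⟩
    intro i' hi'
    rw [Finset.mem_insert] at hi'
    rcases hi' with rfl | hi'
    · rcases s5 with s5 | ⟨π, hπ, hπσ⟩
      · exact absurd s5 (hkill _ σ' s1 hσ'M s4)
      · exact ⟨π, hπ, hπσ.trans Finset.subset_union_left⟩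
    · obtain ⟨π, hπ, hπσ⟩ := h4 i' hi'
      exact ⟨π, hπ, hπσ.trans Finset.subset_union_right⟩

/-- a DNF which every matching can be extended to satisfy -/
def AxOK (D : DNF (P × H)) : Prop :=
  ∀ σ : Finset (P × H), IsM σ → σ.card < Fintype.card H →
    ∃ β, σ ⊆ β ∧ IsM β ∧ β.card ≤ σ.card + 1 ∧ DHolds (asg β) D

/-- **The lower bound for `PHP_t^{t+1}`.** -/
theorem core {t l k r s s₀ S : ℕ} (hP : Fintype.card P = t + 1) (hH : Fintype.card H = t)
    (hl : 1 ≤ l) (hs₀ : s₀ + l = t)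
    (hC : 2 * (2 * (k * (l + 1) ^ 2)) * ((l + 1) * l) ≤ s₀ + 1)
    (hroom : 2 * s * (r + 1) + 2 * k + 2 ≤ l)
    (line : Fin S → DNF (P × H)) (hw : ∀ i, ∀ τ ∈ line i, τ.card ≤ k)
    (hinf : ∀ i, AxOK (line i) ∨ ∃ prem : Finset (Fin S), prem.card ≤ r ∧ (∀ p ∈ prem, p < i) ∧
      ∀ a : P × H → Bool, (∀ p ∈ prem, DHolds a (line p)) → DHolds a (line i))
    (hcon : ∃ i, ∀ a : P × H → Bool, ¬ DHolds a (line i)) : 2 ^ s ≤ 2 * S := by
  by_contra hlt
  push Not at hlt
  have hPH : Fintype.card H ≤ Fintype.card P := by omega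
  -- a good restriction
  obtain ⟨ρ, hρM, hρc, hgood⟩ : ∃ ρ : Finset (P × H), IsM ρ ∧ ρ.card = s₀ ∧
      ∀ i, ∀ j μ, Enc (fam k (line i)) j ρ μ → j < s := by
    by_contra hno
    push Not at hno
    have hsub : MS P H s₀ ⊆ (Finset.univ : Finset (Fin S)).biUnion fun i =>
        bad (fam k (line i)) s₀ s := by
      intro ρ hρ
      obtain ⟨i, j, μ, hE, hj⟩ := hno ρ (mem_MS.1 hρ).1 (mem_MS.1 hρ).2
      rw [Finset.mem_biUnion]
      exact ⟨i, Finset.mem_univ _, Finset.mem_filter.2 ⟨hρ, j, μ, hj, hE⟩⟩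
    have h1 : (MS P H s₀).card ≤ ∑ i : Fin S, (bad (fam k (line i)) s₀ s).card :=
      (Finset.card_le_card hsub).trans Finset.card_biUnion_le
    have h2 : (MS P H s₀).card * 2 ^ s ≤ S * (2 * (MS P H s₀).card) := by
      refine (Nat.mul_le_mul_right _ h1).trans ?_
      rw [Finset.sum_mul]
      refine (Finset.sum_le_sum (g := fun _ => 2 * (MS P H s₀).card) fun i _ => ?_).trans ?_
      · exact card_bad (fun π hπ => (mem_fam.1 hπ).2.1) hP hH hl hs₀ hC
      · simp
    have h3 : 0 < (MS P H s₀).card := by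
      rw [Finset.card_pos]
      obtain ⟨σ, hσ⟩ := exists_matching (P := P) (H := H) hPH s₀ (by omega)
      exact ⟨σ, mem_MS.2 hσ⟩
    have h4 : (MS P H s₀).card * 2 ^ s ≤ (MS P H s₀).card * (2 * S) := by
      refine h2.trans (le_of_eq (by ring))
    exact absurd (Nat.le_of_mul_le_mul_left h4 h3) (by omega)
  -- no line is killed
  have hkill : ∀ n : ℕ, ∀ i : Fin S, i.1 = n → ∀ σ, ρ ⊆ σ → IsM σ → σ.card ≤ ρ.card + 2 * s →
      fstC (fam k (line i)) σ ≠ none := by
    intro n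
    induction n using Nat.strong_induction_on with
    | _ n ih =>
    intro i hi σ h1 h2 h3 h4
    rcases hinf i with hax | ⟨prem, hc, hlt, himp⟩
    · obtain ⟨β, b1, b2, b3, b4⟩ := hax σ h2 (by nlinarith)
      exact not_holds_of_none (hw i) h4 b1 b2 (by nlinarith) b4
    · obtain ⟨θ, t1, t2, t3, t4⟩ := decide_many (D := fun p : prem => line p.1) (k := k) (s := s)
        (ρ := ρ) (σ := σ) hPH (fun p => hgood p.1)
        (fun p σ' k1 k2 k3 => ih p.1.1 (by have := hlt p.1 p.2; omega) p.1 rfl σ' k1 k2 k3)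
        h1 h2 prem.attach (by
          rw [Finset.card_attach]
          have := Nat.mul_le_mul_left (2 * s) hc
          nlinarith)
      rw [Finset.card_attach] at t3
      have h5 : ∀ p ∈ prem, DHolds (asg θ) (line p) := by
        intro p hp
        obtain ⟨π, hπ, hπθ⟩ := t4 ⟨p, hp⟩ (Finset.mem_attach _ _)
        exact holds_of_fam hπ hπθ t2
      refine not_holds_of_none (hw i) h4 t1 t2 ?_ (himp _ h5)
      have := Nat.mul_le_mul_left (2 * s) hc
      nlinarith
  obtain ⟨i, hi⟩ := hcon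
  refine hkill i.1 i rfl ρ subset_rfl hρM (by omega) ?_
  rw [fstC_none]
  intro π hπ
  exfalso
  exact hi _ (holds_of_fam hπ subset_rfl (mem_fam.1 hπ).1)

end Pool.Agent.Work.MP_c109c8_lc
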