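import Pool.Agent.Work.MP_c109c8_lc.Subst

/-!
# Asymptotics
-/

set_option autoImplicit false

open Filter Topology Asymptotics

namespace Pool.Agent.Work.MP_c109c8_lc

/-- choice of the parameters -/
lemma lower_w {m n k r S w : ℕ} (hnm : n < m) (hw : 1 ≤ w) (hk : k ≤ w) (hr : r ≤ w)
    (ht : 30000 * w ^ 9 ≤ n / (m - n)) (R : NarrowRefutation m n k r S) : 2 ^ w ≤ 2 * S := by
  set t := n / (m - n) with ht'
  have h1 : w ^ 2 ≤ w ^ 9 := Nat.pow_le_pow_right hw (by norm_num)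
  have h0 : 1 ≤ w ^ 2 := Nat.one_le_pow _ _ hw
  have hl : 8 * w ^ 2 ≤ t := by omega
  refine lower (l := 8 * w ^ 2) (s₀ := t - 8 * w ^ 2) (s := w) hnm ht' (by omega) (by omega) ?_ ?_ R
  · have h2 : 8 * w ^ 2 + 1 ≤ 9 * w ^ 2 := by omega
    calc 2 * (2 * (k * (8 * w ^ 2 + 1) ^ 2)) * ((8 * w ^ 2 + 1) * (8 * w ^ 2))
        ≤ 2 * (2 * (w * (9 * w ^ 2) ^ 2)) * ((9 * w ^ 2) * (8 * w ^ 2)) := by gcongr
      _ = 23328 * w ^ 9 := by ring
      _ ≤ _ := by omega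
  · calc 2 * w * (r + 1) + 2 * k + 2 ≤ 2 * w * (w + 1) + 2 * w + 2 := by gcongr
      _ ≤ 8 * w ^ 2 := by nlinarith

/-- **Exponential lower bound for `n + n^β` pigeons.** -/
theorem main_bound {β : ℝ} (hβ : β < 1) : ∃ δ : ℝ, 0 < δ ∧ ∀ᶠ n : ℕ in atTop,
    ∀ m k r S : ℕ, n < m → (m : ℝ) ≤ n + (n : ℝ) ^ β → (k : ℝ) ≤ (n : ℝ) ^ δ →
      (r : ℝ) ≤ (n : ℝ) ^ δ → Nonempty (NarrowRefutation m n k r S) →
        Real.exp ((n : ℝ) ^ δ) ≤ S := by
  refine ⟨(1 - β) / 10, by linarith, ?_⟩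
  have hδ : 0 < (1 - β) / 10 := by linarith
  have htend : Tendsto (fun n : ℕ => (n : ℝ) ^ ((1 - β) / 10)) atTop atTop :=
    (tendsto_rpow_atTop hδ).comp tendsto_natCast_atTop_atTop
  filter_upwards [htend.eventually_ge_atTop (10 ^ 10), eventually_ge_atTop 1] with n hx hn1
  intro m k r S hnm hm hk hr ⟨R⟩
  have hn0 : (0 : ℝ) < n := by exact_mod_cast hn1
  set x : ℝ := (n : ℝ) ^ ((1 - β) / 10) with hxdef
  have hx0 : 0 < x := lt_of_lt_of_le (by norm_num) hx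
  set w : ℕ := ⌈2 * x⌉₊ + 2 with hw
  have hw1 : 2 * x + 2 ≤ (w : ℝ) := by
    rw [hw]; push_cast
    linarith [Nat.le_ceil (2 * x)]
  have hw2 : (w : ℝ) ≤ 3 * x := by
    rw [hw]; push_cast
    have := (Nat.ceil_lt_add_one (by positivity : (0 : ℝ) ≤ 2 * x)).le
    linarith
  have hkw : k ≤ w := by
    have : (k : ℝ) ≤ w := by linarith
    exact_mod_cast this
  have hrw : r ≤ w := by
    have : (r : ℝ) ≤ w := by linarith
    exact_mod_cast this
  -- the number of holes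
  have hB : (0 : ℝ) < ((m - n : ℕ) : ℝ) := by
    have : 0 < m - n := by omega
    exact_mod_cast this
  have hBle : ((m - n : ℕ) : ℝ) ≤ (n : ℝ) ^ β := by
    rw [Nat.cast_sub hnm.le]; linarith
  have hx10 : x ^ 10 = (n : ℝ) ^ (1 - β) := by
    rw [hxdef, ← Real.rpow_natCast, ← Real.rpow_mul hn0.le]
    congr 1
    push_cast
    ring
  have ht1 : x ^ 10 ≤ (n : ℝ) / ((m - n : ℕ) : ℝ) := by
    rw [hx10, le_div_iff₀ hB]
    calc (n : ℝ) ^ (1 - β) * ((m - n : ℕ) : ℝ) ≤ (n : ℝ) ^ (1 - β) * (n : ℝ) ^ β := by gcongr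
      _ = n := by
        rw [← Real.rpow_add hn0]
        simp
  have ht2 : (n : ℝ) / ((m - n : ℕ) : ℝ) < ((n / (m - n) : ℕ) : ℝ) + 1 := by
    rw [div_lt_iff₀ hB]
    have h1 : n < (n / (m - n) + 1) * (m - n) := by
      have := Nat.lt_div_mul_add (a := n) (b := m - n) (by omega)
      rw [Nat.add_mul, one_mul]
      exact this
    exact_mod_cast h1
  have ht : 30000 * w ^ 9 ≤ n / (m - n) := by
    have h2 : (30000 : ℝ) * (w : ℝ) ^ 9 + 1 ≤ x ^ 10 := by
      have h3 : (w : ℝ) ^ 9 ≤ (3 * x) ^ 9 := by gcongr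
      have h4 : (1 : ℝ) ≤ x ^ 9 := one_le_pow₀ (le_trans (by norm_num) hx)
      have h5 : x ^ 10 = x * x ^ 9 := by ring
      have h6 : (10 : ℝ) ^ 10 * x ^ 9 ≤ x * x ^ 9 := by gcongr
      have h7 : (3 * x) ^ 9 = 19683 * x ^ 9 := by ring
      rw [h7] at h3
      rw [h5]
      nlinarith
    have h8 : (30000 : ℝ) * (w : ℝ) ^ 9 < ((n / (m - n) : ℕ) : ℝ) := by linarith
    have h9 : ((30000 * w ^ 9 : ℕ) : ℝ) < ((n / (m - n) : ℕ) : ℝ) := by
      push_cast
      exact h8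
    exact (Nat.cast_lt.1 h9).le
  have hfin := lower_w hnm (by omega) hkw hrw ht R
  have hfin' : (2 : ℝ) ^ w ≤ 2 * S := by exact_mod_cast hfin
  have h10 : (2 : ℝ) ^ w = Real.exp (w * Real.log 2) := by
    rw [mul_comm, ← Real.rpow_def_of_pos (by norm_num), Real.rpow_natCast]
  have h11 : x + 1 ≤ w * Real.log 2 := by
    have := Real.log_two_gt_d9
    nlinarith
  have h12 : Real.exp (x + 1) ≤ 2 * S := by
    refine (Real.exp_le_exp.2 h11).trans ?_
    rw [← h10]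
    exact hfin'
  rw [Real.exp_add] at h12
  have h13 : (2 : ℝ) ≤ Real.exp 1 := by
    have := Real.add_one_le_exp (1 : ℝ)
    linarith
  have h14 := Real.exp_pos x
  nlinarith

/-- **The statement (B) fails.** -/
theorem not_B (c C : ℝ) : ∀ᶠ n : ℕ in atTop, ∀ m k r S : ℕ, n < m →
    (m : ℝ) ≤ n + (n : ℝ) ^ (1 / 2 : ℝ) + 1 → (k : ℝ) ≤ Real.log (m * n) ^ c →
      (r : ℝ) ≤ Real.log (m * n) ^ c → Nonempty (NarrowRefutation m n k r S) →
        (n : ℝ) ^ (C * Real.log n) < S := by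
  obtain ⟨δ, hδ, hmain⟩ := main_bound (β := 3 / 4) (by norm_num)
  set c' := max c 0 with hc'
  have hc'0 : 0 ≤ c' := le_max_right _ _
  have e1 : ∀ᶠ n : ℕ in atTop, (3 : ℝ) ^ c' * Real.log n ^ c' ≤ (n : ℝ) ^ δ := by
    have h := (isLittleO_log_rpow_rpow_atTop c' hδ).comp_tendsto tendsto_natCast_atTop_atTop
    have h3 : (0 : ℝ) < 3 ^ c' := by positivity
    filter_upwards [h.bound (inv_pos.2 h3), eventually_ge_atTop 1] with n hn hn1
    have h4 : 0 ≤ Real.log n := Real.log_nonneg (by exact_mod_cast hn1)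
    simp only [Function.comp] at hn
    rw [Real.norm_of_nonneg (by positivity), Real.norm_of_nonneg (by positivity)] at hn
    rw [inv_mul_eq_div, le_div_iff₀ h3] at hn
    linarith
  have e2 : ∀ᶠ n : ℕ in atTop, C * Real.log n ^ 2 < (n : ℝ) ^ δ := by
    have h := (isLittleO_log_rpow_rpow_atTop 2 hδ).comp_tendsto tendsto_natCast_atTop_atTop
    have h3 : (0 : ℝ) < |C| + 1 := by positivity
    filter_upwards [h.bound (inv_pos.2 h3), eventually_ge_atTop 1] with n hn hn1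
    have h4 : 0 ≤ Real.log n := Real.log_nonneg (by exact_mod_cast hn1)
    have h5 : 0 < (n : ℝ) ^ δ := Real.rpow_pos_of_pos (by exact_mod_cast hn1) _
    simp only [Function.comp] at hn
    rw [Real.norm_of_nonneg (by positivity), Real.norm_of_nonneg (by positivity)] at hn
    rw [inv_mul_eq_div, le_div_iff₀ h3, Real.rpow_two] at hn
    have h6 : C ≤ |C| := le_abs_self C
    rcases eq_or_lt_of_le (sq_nonneg (Real.log n)) with h7 | h7
    · rw [← h7]; simpa using h5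
    · nlinarith
  filter_upwards [hmain, e1, e2, eventually_ge_atTop 16] with n h1 h2 h3 hn
  intro m k r S hnm hm hk hr hR
  have hn0 : (16 : ℝ) ≤ n := by exact_mod_cast hn
  have hnpos : (0 : ℝ) < n := by linarith
  -- `√n + 1 ≤ n^{3/4}`
  have h4 : (n : ℝ) ^ (1 / 2 : ℝ) + 1 ≤ (n : ℝ) ^ (3 / 4 : ℝ) := by
    have a1 : (2 : ℝ) ≤ (n : ℝ) ^ (1 / 4 : ℝ) := by
      have : ((2 : ℝ) ^ (4 : ℝ)) ^ (1 / 4 : ℝ) ≤ (n : ℝ) ^ (1 / 4 : ℝ) := by
        refine Real.rpow_le_rpow (by positivity) ?_ (by norm_num)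
        norm_num
        linarith
      rw [← Real.rpow_mul (by norm_num)] at this
      norm_num at this
      exact this
    have a2 : (n : ℝ) ^ (3 / 4 : ℝ) = (n : ℝ) ^ (1 / 4 : ℝ) * (n : ℝ) ^ (1 / 2 : ℝ) := by
      rw [← Real.rpow_add hnpos]; norm_num
    have a3 : (1 : ℝ) ≤ (n : ℝ) ^ (1 / 2 : ℝ) :=
      Real.one_le_rpow (by linarith) (by norm_num)
    rw [a2]
    nlinarith
  have h5 : (n : ℝ) ^ (1 / 2 : ℝ) + 1 ≤ n := by
    refine h4.trans ?_
    have := Real.rpow_le_rpow_of_exponent_le (x := (n : ℝ)) (by linarith)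
      (by norm_num : (3 / 4 : ℝ) ≤ 1)
    rwa [Real.rpow_one] at this
  have hmle : (m : ℝ) ≤ 2 * n := by linarith
  have hmn0 : (n : ℝ) < m := by exact_mod_cast hnm
  have hmpos : (0 : ℝ) < m := by linarith
  have hlog1 : 1 ≤ Real.log (m * n) := by
    rw [Real.le_log_iff_exp_le (by positivity)]
    have := Real.exp_one_lt_d9
    nlinarith
  have hlog2 : Real.log (m * n) ≤ 3 * Real.log n := by
    rw [show (3 : ℝ) * Real.log n = Real.log ((n : ℝ) ^ 3) by rw [Real.log_pow]; norm_num]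
    refine Real.log_le_log (by positivity) ?_
    nlinarith [mul_pos hnpos hnpos]
  have hlogn : 0 ≤ Real.log n := Real.log_nonneg (by linarith)
  have h6 : Real.log (m * n) ^ c ≤ (n : ℝ) ^ δ := by
    refine (Real.rpow_le_rpow_of_exponent_le hlog1 (le_max_left c 0)).trans ?_
    refine (Real.rpow_le_rpow (by linarith) hlog2 hc'0).trans ?_
    rw [Real.mul_rpow (by norm_num) hlogn]
    exact h2
  have h7 := h1 m k r S hnm (by linarith) (hk.trans h6) (hr.trans h6) hR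
  refine lt_of_lt_of_le ?_ h7
  rw [Real.rpow_def_of_pos hnpos, Real.exp_lt_exp]
  calc Real.log n * (C * Real.log n) = C * Real.log n ^ 2 := by ring
    _ < _ := h3

end Pool.Agent.Work.MP_c109c8_lc
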