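import Pool.Agent.Work.MP_c109c8_lc.Count

/-!
# Few bad restrictions
-/

set_option autoImplicit false
set_option linter.unusedSectionVars false

open Classical

namespace Pool.Agent.Work.MP_c109c8_lc

variable {P H : Type} [Fintype P] [Fintype H]

variable (P H) in
/-- matchings of size `s` -/
noncomputable def MS (s : ℕ) : Finset (Finset (P × H)) :=
  Finset.univ.filter fun σ => IsM σ ∧ σ.card = s

lemma mem_MS {s : ℕ} {σ : Finset (P × H)} : σ ∈ MS P H s ↔ IsM σ ∧ σ.card = s := by
  simp [MS]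

lemma MS_step (s : ℕ) : (MS P H (s + 1)).card * (s + 1) ≤
    (MS P H s).card * ((Fintype.card P - s) * (Fintype.card H - s)) := by
  refine Finset.card_mul_le_card_mul (fun σ' σ : Finset (P × H) => σ ⊆ σ') ?_ ?_
  · intro σ' hσ'
    rw [mem_MS] at hσ'
    obtain ⟨h1, h2⟩ := hσ'
    rw [← h2]
    refine Finset.card_le_card_of_injOn (fun e => σ'.erase e) ?_ ?_
    · intro e he
      rw [Finset.mem_coe] at he
      rw [Finset.mem_coe, Finset.mem_bipartiteAbove, mem_MS]
      refine ⟨⟨h1.mono (Finset.erase_subset _ _), ?_⟩, Finset.erase_subset _ _⟩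
      rw [Finset.card_erase_of_mem he, h2, Nat.add_sub_cancel]
    · intro e he f hf hef
      rw [Finset.mem_coe] at he hf
      by_contra hne
      have : f ∈ σ'.erase e := Finset.mem_erase.2 ⟨fun h => hne h.symm, hf⟩
      have h3 : σ'.erase e = σ'.erase f := hef
      rw [h3] at this
      exact (Finset.mem_erase.1 this).1 rfl
  · intro σ hσ
    rw [mem_MS] at hσ
    obtain ⟨h1, h2⟩ := hσ
    have c1 := card_freeP h1
    have c2 := card_freeH h1
    rw [show Fintype.card P - s = (freeP σ).card by omega,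
      show Fintype.card H - s = (freeH σ).card by omega, ← Finset.card_product]
    have hsub : (MS P H (s + 1)).bipartiteBelow (fun σ' σ : Finset (P × H) => σ ⊆ σ') σ ⊆
        (freeP σ ×ˢ freeH σ).image fun e => insert e σ := by
      intro σ' hσ'
      rw [Finset.mem_bipartiteBelow, mem_MS] at hσ'
      obtain ⟨⟨k1, k2⟩, k3⟩ := hσ'
      have : (σ' \ σ).card = 1 := by
        rw [Finset.card_sdiff_of_subset k3]; omega
      obtain ⟨e, he⟩ := Finset.card_eq_one.1 this
      have heσ : e ∈ σ' \ σ := by rw [he]; exact Finset.mem_singleton_self _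
      rw [Finset.mem_sdiff] at heσ
      rw [Finset.mem_image]
      refine ⟨e, ?_, ?_⟩
      · rw [Finset.mem_product, mem_freeP, mem_freeH]
        constructor
        · intro f hf hfe
          have := k1 f (k3 hf) e heσ.1 (Or.inl hfe)
          exact heσ.2 (this ▸ hf)
        · intro f hf hfe
          have := k1 f (k3 hf) e heσ.1 (Or.inr hfe)
          exact heσ.2 (this ▸ hf)
      · rw [Finset.insert_eq, ← he, Finset.sdiff_union_of_subset k3]
    exact (Finset.card_le_card hsub).trans Finset.card_image_le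

lemma MS_pow (s j : ℕ) : (MS P H (s + j)).card * (s + 1) ^ j ≤
    (MS P H s).card * ((Fintype.card P - s) * (Fintype.card H - s)) ^ j := by
  induction j with
  | zero => simp
  | succ j ih =>
    calc (MS P H (s + (j + 1))).card * (s + 1) ^ (j + 1)
        ≤ (MS P H (s + j + 1)).card * ((s + j + 1) * (s + 1) ^ j) := by
          rw [pow_succ, mul_comm ((s + 1) ^ j), ← add_assoc]
          exact Nat.mul_le_mul_left _ (Nat.mul_le_mul_right _ (by omega))
      _ = (MS P H (s + j + 1)).card * (s + j + 1) * (s + 1) ^ j := by ring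
      _ ≤ ((MS P H (s + j)).card *
            ((Fintype.card P - (s + j)) * (Fintype.card H - (s + j)))) * (s + 1) ^ j :=
          Nat.mul_le_mul_right _ (MS_step _)
      _ = ((MS P H (s + j)).card * (s + 1) ^ j) *
            ((Fintype.card P - (s + j)) * (Fintype.card H - (s + j))) := by ring
      _ ≤ ((MS P H s).card * ((Fintype.card P - s) * (Fintype.card H - s)) ^ j) *
            ((Fintype.card P - s) * (Fintype.card H - s)) :=
          Nat.mul_le_mul ih (Nat.mul_le_mul (by omega) (by omega))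
      _ = _ := by rw [pow_succ]; ring

/-- restrictions of size `s₀` with a run of length at least `s` -/
noncomputable def bad (L : List (Finset (P × H))) (s₀ s : ℕ) : Finset (Finset (P × H)) :=
  (MS P H s₀).filter fun ρ => ∃ j μ, s ≤ j ∧ Enc L j ρ μ

lemma geom_aux {a : ℕ → ℕ} {M s : ℕ} (d : ℕ) (h : ∀ i < d, a (s + i) * 2 ^ (s + i) ≤ M) :
    (∑ i ∈ Finset.range d, a (s + i)) * 2 ^ s * 2 ^ d + 2 * M ≤ 2 * M * 2 ^ d := by
  induction d with
  | zero => simp
  | succ d ih =>
    have h1 := ih fun i hi => h i (by omega)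
    have h2 := h d (by omega)
    rw [Finset.sum_range_succ, pow_succ]
    rw [pow_add] at h2
    nlinarith

theorem card_bad {L : List (Finset (P × H))} {k t l s₀ s : ℕ} (hL : ∀ π ∈ L, π.card ≤ k)
    (hP : Fintype.card P = t + 1) (hH : Fintype.card H = t) (hl : 1 ≤ l) (hs₀ : s₀ + l = t)
    (hC : 2 * (2 * (k * (l + 1) ^ 2)) * ((l + 1) * l) ≤ s₀ + 1) :
    (bad L s₀ s).card * 2 ^ s ≤ 2 * (MS P H s₀).card := by
  set C := 2 * (k * (l + 1) ^ 2) with hCdef
  have hsub : bad L s₀ s ⊆ (Finset.range (l + 1 - s)).biUnion fun i =>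
      (MS P H (s₀ + (s + i))).biUnion fun μ => src L (s + i) μ := by
    intro ρ hρ
    rw [bad, Finset.mem_filter, mem_MS] at hρ
    obtain ⟨⟨h1, h2⟩, j, μ, hj, hE⟩ := hρ
    obtain ⟨f1, f2, f3⟩ := hE.facts h1
    have := card_freeH f2
    rw [Finset.mem_biUnion]
    refine ⟨j - s, Finset.mem_range.2 (by omega), ?_⟩
    rw [Finset.mem_biUnion]
    refine ⟨μ, mem_MS.2 ⟨f2, by omega⟩, mem_src.2 ⟨h1, ?_⟩⟩
    rw [show s + (j - s) = j by omega]
    exact hE
  have h1 : (bad L s₀ s).card ≤
      ∑ i ∈ Finset.range (l + 1 - s), (MS P H (s₀ + (s + i))).card * C ^ (s + i) := by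
    refine (Finset.card_le_card hsub).trans (Finset.card_biUnion_le.trans ?_)
    refine Finset.sum_le_sum fun i hi => ?_
    rw [Finset.mem_range] at hi
    refine Finset.card_biUnion_le_card_mul _ _ _ fun μ hμ => ?_
    rw [mem_MS] at hμ
    exact card_src hL (s + i) μ hμ.1 (by rw [hμ.2]; omega) (by rw [hμ.2]; omega)
  have h2 : ∀ j, (MS P H (s₀ + j)).card * C ^ j * 2 ^ j ≤ (MS P H s₀).card := by
    intro j
    have h3 := MS_pow (P := P) (H := H) s₀ j
    rw [hP, hH, show t + 1 - s₀ = l + 1 by omega, show t - s₀ = l by omega] at h3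
    have h4 : 0 < ((l + 1) * l) ^ j := by positivity
    refine Nat.le_of_mul_le_mul_right ?_ h4
    refine le_trans ?_ h3
    calc (MS P H (s₀ + j)).card * C ^ j * 2 ^ j * ((l + 1) * l) ^ j
        = (MS P H (s₀ + j)).card * (2 * C * ((l + 1) * l)) ^ j := by
          rw [mul_pow (2 * C), mul_pow 2 C, mul_assoc, mul_assoc, ← mul_assoc (C ^ j),
            mul_comm (C ^ j) (2 ^ j)]
      _ ≤ _ := Nat.mul_le_mul_left _ (Nat.pow_le_pow_left hC _)
  have h5 := geom_aux (a := fun j => (MS P H (s₀ + j)).card * C ^ j) (s := s) (l + 1 - s)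
    fun i _ => h2 (s + i)
  have h6 : (∑ i ∈ Finset.range (l + 1 - s), (MS P H (s₀ + (s + i))).card * C ^ (s + i)) * 2 ^ s *
      2 ^ (l + 1 - s) ≤ 2 * (MS P H s₀).card * 2 ^ (l + 1 - s) := by
    exact (Nat.le_add_right _ _).trans h5
  have h7 := Nat.le_of_mul_le_mul_right h6 (by positivity)
  exact (Nat.mul_le_mul_right _ h1).trans h7

end Pool.Agent.Work.MP_c109c8_lc
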