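import Pool.Agent.Work.MP_c109c8_lc.Match

/-!
# Counting lemma for runs
-/

set_option autoImplicit false
set_option linter.unusedSectionVars false

open Classical

namespace Pool.Agent.Work.MP_c109c8_lc

variable {P H : Type} [Fintype P] [Fintype H]

/-- number of answers -/
lemma card_ans (β A : Finset (P × H)) :
    (Finset.univ.filter fun ν : Finset (P × H) => Ans β A ν).card ≤
      ((freeH β).card * (freeP β).card) ^ A.card := by
  have hsub : (Finset.univ.filter fun ν : Finset (P × H) => Ans β A ν) ⊆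
      ((Fintype.piFinset fun _ : A => freeH β) ×ˢ (Fintype.piFinset fun _ : A => freeP β)).image
        (fun fg : (A → H) × (A → P) => (Finset.univ.image fun a : A => (a.1.1, fg.1 a)) ∪
          (Finset.univ.image fun a : A => (fg.2 a, a.1.2))) := by
    intro ν hν
    rw [Finset.mem_filter] at hν
    obtain ⟨-, h1, h2, h3, h4⟩ := hν
    have hνM : IsM ν := h1.mono Finset.subset_union_right
    choose f hf using fun a : A => (h3 a.1 a.2).1
    choose g hg using fun a : A => (h3 a.1 a.2).2
    rw [Finset.mem_image]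
    have hfree : ∀ e ∈ ν, e.1 ∈ freeP β ∧ e.2 ∈ freeH β := by
      intro e he
      rw [mem_freeP, mem_freeH]
      constructor
      · intro e' he' h
        have := h1 e' (Finset.mem_union_left _ he') e (Finset.mem_union_right _ he) (Or.inl h)
        exact Finset.disjoint_left.1 h2 he' (this ▸ he)
      · intro e' he' h
        have := h1 e' (Finset.mem_union_left _ he') e (Finset.mem_union_right _ he) (Or.inr h)
        exact Finset.disjoint_left.1 h2 he' (this ▸ he)
    refine ⟨(fun a => (f a).2, fun a => (g a).1), ?_, ?_⟩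
    · rw [Finset.mem_product, Fintype.mem_piFinset, Fintype.mem_piFinset]
      exact ⟨fun a => (hfree _ (hf a).1).2, fun a => (hfree _ (hg a).1).1⟩
    · ext e
      simp only [Finset.mem_union, Finset.mem_image, Finset.mem_univ, true_and]
      constructor
      · rintro (⟨a, rfl⟩ | ⟨a, rfl⟩)
        · have := (hf a).2
          have h' : (a.1.1, (f a).2) = f a := by rw [← this]
          rw [h']
          exact (hf a).1
        · have := (hg a).2
          have h' : ((g a).1, a.1.2) = g a := by rw [← this]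
          rw [h']
          exact (hg a).1
      · intro he
        obtain ⟨a, ha, h | h⟩ := h4 e he
        · left
          refine ⟨⟨a, ha⟩, ?_⟩
          have h5 := (hf ⟨a, ha⟩)
          have h6 : f ⟨a, ha⟩ = e := hνM _ h5.1 _ he (Or.inl (h5.2.trans h.symm))
          rw [h6, ← h]
        · right
          refine ⟨⟨a, ha⟩, ?_⟩
          have h5 := (hg ⟨a, ha⟩)
          have h6 : g ⟨a, ha⟩ = e := hνM _ h5.1 _ he (Or.inr (h5.2.trans h.symm))
          rw [h6, ← h]
  refine (Finset.card_le_card hsub).trans (Finset.card_image_le.trans ?_)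
  have hA : Fintype.card A = A.card := Fintype.card_coe A
  have e1 : (Fintype.piFinset fun _ : A => freeH β).card = (freeH β).card ^ A.card := by
    rw [Fintype.card_piFinset, Finset.prod_const, Finset.card_univ, hA]
  have e2 : (Fintype.piFinset fun _ : A => freeP β).card = (freeP β).card ^ A.card := by
    rw [Fintype.card_piFinset, Finset.prod_const, Finset.card_univ, hA]
  rw [Finset.card_product, e1, e2, mul_pow]

/-- the set of sources of runs encoded by `μ` -/
noncomputable def src (L : List (Finset (P × H))) (j : ℕ) (μ : Finset (P × H)) :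
    Finset (Finset (P × H)) :=
  Finset.univ.filter fun σ => IsM σ ∧ Enc L j σ μ

lemma mem_src {L : List (Finset (P × H))} {j : ℕ} {μ σ : Finset (P × H)} :
    σ ∈ src L j μ ↔ IsM σ ∧ Enc L j σ μ := by
  simp [src]

lemma sum_two_pow_aux (j : ℕ) : ∑ a ∈ Finset.Icc 1 j, 2 ^ (j - a) + 1 = 2 ^ j := by
  induction j with
  | zero => simp
  | succ j ih =>
    rw [Finset.sum_Icc_succ_top (by omega)]
    have : ∑ a ∈ Finset.Icc 1 j, 2 ^ (j + 1 - a) = 2 * ∑ a ∈ Finset.Icc 1 j, 2 ^ (j - a) := by
      rw [Finset.mul_sum]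
      refine Finset.sum_congr rfl fun a ha => ?_
      rw [Finset.mem_Icc] at ha
      rw [show j + 1 - a = (j - a) + 1 by omega, pow_succ, mul_comm]
    rw [this, Nat.sub_self, pow_zero, pow_succ]
    omega

lemma sum_two_pow (j : ℕ) : ∑ a ∈ Finset.Icc 1 j, 2 ^ (j - a) ≤ 2 ^ j := by
  have := sum_two_pow_aux j
  omega

/-- the main recursion -/
lemma src_step {L : List (Finset (P × H))} {j : ℕ} {μ σ : Finset (P × H)} (hj : j ≠ 0)
    (h : σ ∈ src L j μ) :
    ∃ π ∈ L, fstC L μ = some π ∧ ∃ A ⊆ π, 1 ≤ A.card ∧ A.card ≤ j ∧ A ⊆ μ ∧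
      ∃ ν, Ans (μ \ A) A ν ∧ ∃ σ' ∈ src L (j - A.card) ((μ \ A) ∪ ν), σ = σ' \ ν := by
  rw [mem_src] at h
  obtain ⟨hσ, h⟩ := h
  obtain ⟨f1, f2, f3⟩ := h.facts hσ
  cases h with
  | nil => exact absurd rfl hj
  | @step j' _ π ν μ' h1 h2 h3 h4 =>
    obtain ⟨i1, i2, i3⟩ := h4.facts h3.1
    obtain ⟨hπ, hπσ⟩ := fstC_some h1
    have hA : IsM (σ ∪ (π \ σ)) := hπσ.mono (by
      rw [Finset.union_sdiff_self_eq_union])
    obtain ⟨s1, s2, s3, s4, s5⟩ := step_facts hA Finset.sdiff_disjoint h3 i1 i2
    have hpos : 1 ≤ (π \ σ).card := h2.card_pos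
    have hsd : ((μ' \ ν) ∪ (π \ σ)) \ (π \ σ) = μ' \ ν := by
      rw [Finset.union_sdiff_right, Finset.sdiff_eq_self_of_disjoint s2]
    refine ⟨π, hπ, ?_, π \ σ, Finset.sdiff_subset, hpos, by omega, Finset.subset_union_right, ν,
      ?_, σ ∪ ν, ?_, ?_⟩
    · refine fstC_mono h1 s3 ?_
      refine s1.mono (Finset.union_subset subset_rfl ?_)
      intro e he
      by_cases heσ : e ∈ σ
      · exact s3 heσ
      · exact Finset.mem_union_right _ (Finset.mem_sdiff.2 ⟨he, heσ⟩)
    · rw [hsd]
      refine ⟨i2.mono ?_, Finset.sdiff_disjoint, h3.2.2.1, h3.2.2.2⟩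
      exact Finset.union_subset Finset.sdiff_subset (Finset.subset_union_right.trans i1)
    · rw [s5, mem_src]
      refine ⟨h3.1, ?_⟩
      rw [Nat.add_sub_cancel]
      exact h4
    · rw [Finset.union_sdiff_right, Finset.sdiff_eq_self_of_disjoint h3.2.1]

theorem card_src {L : List (Finset (P × H))} {k Lc : ℕ} (hL : ∀ π ∈ L, π.card ≤ k) (j : ℕ) :
    ∀ μ : Finset (P × H), IsM μ → Fintype.card P - μ.card + j ≤ Lc →
      Fintype.card H - μ.card + j ≤ Lc → (src L j μ).card ≤ (2 * (k * Lc ^ 2)) ^ j := by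
  induction j using Nat.strong_induction_on with
  | _ j ih =>
  intro μ hμ hP hH
  rcases Nat.eq_zero_or_pos j with rfl | hj
  · rw [pow_zero, Finset.card_le_one]
    have key : ∀ σ ∈ src L 0 μ, σ = μ := by
      intro σ hσ
      rw [mem_src] at hσ
      obtain ⟨hσ1, h⟩ := hσ
      obtain ⟨f1, f2, f3⟩ := h.facts hσ1
      exact Finset.eq_of_subset_of_card_le f1 (by omega)
    intro a ha b hb
    rw [key a ha, key b hb]
  · rcases (src L j μ).eq_empty_or_nonempty with he | ⟨σ₀, hσ₀⟩
    · rw [he]; simp
    obtain ⟨π, hπL, hπ, -⟩ := src_step hj.ne' hσ₀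
    have hsub : src L j μ ⊆ (Finset.Icc 1 j).biUnion fun a =>
        ((Finset.powersetCard a π).filter fun A => A ⊆ μ).biUnion fun A =>
          (Finset.univ.filter fun ν : Finset (P × H) => Ans (μ \ A) A ν).biUnion fun ν =>
            (src L (j - a) ((μ \ A) ∪ ν)).image fun σ' => σ' \ ν := by
      intro σ hσ
      obtain ⟨π', hπL', hπ', A, hA, hA1, hA2, hAμ, ν, hν, σ', hσ', hσσ'⟩ := src_step hj.ne' hσ
      rw [hπ] at hπ'
      obtain rfl : π = π' := Option.some_injective _ hπ'
      rw [Finset.mem_biUnion]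
      refine ⟨A.card, Finset.mem_Icc.2 ⟨hA1, hA2⟩, ?_⟩
      rw [Finset.mem_biUnion]
      refine ⟨A, Finset.mem_filter.2 ⟨Finset.mem_powersetCard.2 ⟨hA, rfl⟩, hAμ⟩, ?_⟩
      rw [Finset.mem_biUnion]
      refine ⟨ν, Finset.mem_filter.2 ⟨Finset.mem_univ _, hν⟩, ?_⟩
      rw [Finset.mem_image]
      exact ⟨σ', hσ', hσσ'.symm⟩
    refine (Finset.card_le_card hsub).trans (Finset.card_biUnion_le.trans ?_)
    have hstep : ∀ a ∈ Finset.Icc 1 j,
        (((Finset.powersetCard a π).filter fun A => A ⊆ μ).biUnion fun A =>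
          (Finset.univ.filter fun ν : Finset (P × H) => Ans (μ \ A) A ν).biUnion fun ν =>
            (src L (j - a) ((μ \ A) ∪ ν)).image fun σ' => σ' \ ν).card ≤
          (k * Lc ^ 2) ^ j * 2 ^ (j - a) := by
      intro a ha
      rw [Finset.mem_Icc] at ha
      have hA : ∀ A ∈ (Finset.powersetCard a π).filter fun A => A ⊆ μ,
          ((Finset.univ.filter fun ν : Finset (P × H) => Ans (μ \ A) A ν).biUnion fun ν =>
            (src L (j - a) ((μ \ A) ∪ ν)).image fun σ' => σ' \ ν).card ≤
            (Lc ^ 2) ^ a * (2 * (k * Lc ^ 2)) ^ (j - a) := by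
        intro A hA
        rw [Finset.mem_filter, Finset.mem_powersetCard] at hA
        obtain ⟨⟨hAπ, hAc⟩, hAμ⟩ := hA
        have hβ : IsM (μ \ A) := hμ.mono Finset.sdiff_subset
        have c1 := card_freeP hβ
        have c2 := card_freeH hβ
        have c3 := card_freeP hμ
        have c4 := card_freeH hμ
        have c5 : (μ \ A).card + A.card = μ.card := by
          rw [Finset.card_sdiff_of_subset hAμ]
          have := Finset.card_le_card hAμ
          omega
        refine le_trans (Finset.card_biUnion_le_card_mul _ _ ((2 * (k * Lc ^ 2)) ^ (j - a)) ?_) ?_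
        · intro ν hν
          rw [Finset.mem_filter] at hν
          obtain ⟨-, hν⟩ := hν
          refine Finset.card_image_le.trans ?_
          have c6 : ((μ \ A) ∪ ν).card = (μ \ A).card + ν.card :=
            Finset.card_union_of_disjoint hν.2.1
          refine ih (j - a) (by omega) _ hν.1 ?_ ?_
          · omega
          · omega
        · refine Nat.mul_le_mul_right _ ((card_ans _ _).trans ?_)
          rw [hAc]
          refine Nat.pow_le_pow_left ?_ _
          rw [pow_two]
          exact Nat.mul_le_mul (by omega) (by omega)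
      refine le_trans (Finset.card_biUnion_le_card_mul _ _ _ hA) ?_
      have h1 : ((Finset.powersetCard a π).filter fun A => A ⊆ μ).card ≤ k ^ a := by
        refine (Finset.card_filter_le _ _).trans ?_
        rw [Finset.card_powersetCard]
        exact (Nat.choose_le_pow _ _).trans (Nat.pow_le_pow_left (hL π hπL) _)
      refine (Nat.mul_le_mul_right _ h1).trans (le_of_eq ?_)
      have h2 : j = a + (j - a) := by omega
      conv_rhs => rw [h2, Nat.add_sub_cancel_left]
      rw [mul_pow, mul_pow, mul_pow, pow_add, pow_add]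
      ring
    refine (Finset.sum_le_sum hstep).trans ?_
    rw [← Finset.mul_sum, mul_pow 2, mul_comm]
    exact Nat.mul_le_mul_right _ (sum_two_pow j)

end Pool.Agent.Work.MP_c109c8_lc
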