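import Mathlib

/-!
# Refutations of the pigeonhole principle by narrow sequents (MP_c109c8_lc)

The system `F_{1.5}` has as its lines sequents of narrow clauses and narrow conjunctions.  We use
its strongest (semantic) form: a line may be inferred by any sound inference from a bounded number
of earlier lines.
-/

set_option autoImplicit false

namespace Pool.Agent.Work.MP_c109c8_lc

/-- The formulas of the lines.  A literal over the variables `V` is a pair `(v, b)`: the variable
`v` if `b = true` and its negation if `b = false`.  A formula is a clause (disjunction of literals)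
or a conjunction of literals, given by the finite set of its literals. -/
inductive Fml (V : Type) : Type
  | clause (c : Finset (V × Bool)) : Fml V
  | conj (c : Finset (V × Bool)) : Fml V

/-- The number of literals of a formula. -/
def Fml.width {V : Type} : Fml V → ℕ
  | .clause c => c.card
  | .conj c => c.card

/-- Truth of a formula under a truth assignment. -/
def Fml.Holds {V : Type} (a : V → Bool) : Fml V → Prop
  | .clause c => ∃ l ∈ c, a l.1 = l.2
  | .conj c => ∀ l ∈ c, a l.1 = l.2

/-- A sequent `ante ⊢ succ`. -/
structure Sequent (V : Type) : Type where
  /-- the antecedent -/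
  ante : List (Fml V)
  /-- the succedent -/
  succ : List (Fml V)

/-- Truth of a sequent under a truth assignment: if all formulas of the antecedent are true then
some formula of the succedent is true. -/
def Sequent.Holds {V : Type} (a : V → Bool) (s : Sequent V) : Prop :=
  (∀ φ ∈ s.ante, φ.Holds a) → ∃ φ ∈ s.succ, φ.Holds a

/-- All formulas of a sequent have at most `k` literals. -/
def Sequent.Narrow {V : Type} (k : ℕ) (s : Sequent V) : Prop :=
  (∀ φ ∈ s.ante, φ.width ≤ k) ∧ ∀ φ ∈ s.succ, φ.width ≤ k

/-- `C` is one of the clauses whose conjunction is the negation of `PHP_n^m`: `⋁ⱼ x_{ij}` for a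
pigeon `i`, or `¬ x_{ij} ∨ ¬ x_{i'j}` for two different pigeons `i, i'` and a hole `j`. -/
def IsPHPClause (m n : ℕ) (C : Fml (Fin m × Fin n)) : Prop :=
  (∃ i : Fin m, C = .clause (Finset.univ.image fun j : Fin n => ((i, j), true))) ∨
    ∃ (i i' : Fin m) (j : Fin n), i ≠ i' ∧ C = .clause {((i, j), false), ((i', j), false)}

/-- A refutation of the negation of `PHP_n^m` by `k`-narrow sequents with fan-in `r` and `S` lines:
a sequence of `S` sequents all of whose formulas have at most `k` literals, in which every line is
a logical consequence of a single clause of the negation of `PHP_n^m`, or a logical consequence of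
at most `r` earlier lines, and in which some line is unsatisfiable. -/
structure NarrowRefutation (m n k r S : ℕ) where
  /-- the lines -/
  line : Fin S → Sequent (Fin m × Fin n)
  /-- every line is narrow -/
  narrow : ∀ i, (line i).Narrow k
  /-- every line follows from a clause of `¬ PHP_n^m` or from at most `r` earlier lines -/
  infer : ∀ i,
    (∃ C, IsPHPClause m n C ∧ ∀ a : Fin m × Fin n → Bool, C.Holds a → (line i).Holds a) ∨
    ∃ prem : Finset (Fin S), prem.card ≤ r ∧ (∀ p ∈ prem, p < i) ∧
      ∀ a : Fin m × Fin n → Bool, (∀ p ∈ prem, (line p).Holds a) → (line i).Holds a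
  /-- some line is unsatisfiable -/
  contr : ∃ i, ∀ a : Fin m × Fin n → Bool, ¬ (line i).Holds a

end Pool.Agent.Work.MP_c109c8_lc
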