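import Mathlib

/-!
# Matchings and the switching lemma for matchings (MP_c109c8_lc)
-/

set_option autoImplicit false
set_option linter.unusedSectionVars false

open Classical

namespace Pool.Agent.Work.MP_c109c8_lc

variable {P H : Type} [Fintype P] [Fintype H]

/-- A set of pairs is a matching. -/
def IsM (σ : Finset (P × H)) : Prop := ∀ e ∈ σ, ∀ f ∈ σ, e.1 = f.1 ∨ e.2 = f.2 → e = f

lemma IsM.mono {σ τ : Finset (P × H)} (h : IsM τ) (hs : σ ⊆ τ) : IsM σ :=
  fun e he f hf hef => h e (hs he) f (hs hf) hef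

lemma isM_empty : IsM (∅ : Finset (P × H)) := fun e he => absurd he (Finset.notMem_empty e)

/-- free pigeons -/
noncomputable def freeP (σ : Finset (P × H)) : Finset P := Finset.univ.filter fun i => ∀ e ∈ σ, e.1 ≠ i

/-- free holes -/
noncomputable def freeH (σ : Finset (P × H)) : Finset H := Finset.univ.filter fun j => ∀ e ∈ σ, e.2 ≠ j

lemma mem_freeP {σ : Finset (P × H)} {i : P} : i ∈ freeP σ ↔ ∀ e ∈ σ, e.1 ≠ i := by
  simp [freeP]

lemma mem_freeH {σ : Finset (P × H)} {j : H} : j ∈ freeH σ ↔ ∀ e ∈ σ, e.2 ≠ j := by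
  simp [freeH]

lemma card_freeP {σ : Finset (P × H)} (h : IsM σ) :
    (freeP σ).card + σ.card = Fintype.card P := by
  have h1 : (σ.image Prod.fst).card = σ.card := by
    refine Finset.card_image_of_injOn fun e he f hf hef => h e he f hf (Or.inl hef)
  have h2 : freeP σ = (σ.image Prod.fst)ᶜ := by
    ext i
    rw [mem_freeP, Finset.mem_compl, Finset.mem_image]
    constructor
    · rintro h' ⟨e, he, rfl⟩
      exact h' e he rfl
    · rintro h' e he rfl
      exact h' ⟨e, he, rfl⟩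
  rw [h2, ← h1, add_comm, Finset.card_add_card_compl]

lemma card_freeH {σ : Finset (P × H)} (h : IsM σ) :
    (freeH σ).card + σ.card = Fintype.card H := by
  have h1 : (σ.image Prod.snd).card = σ.card := by
    refine Finset.card_image_of_injOn fun e he f hf hef => h e he f hf (Or.inr hef)
  have h2 : freeH σ = (σ.image Prod.snd)ᶜ := by
    ext i
    rw [mem_freeH, Finset.mem_compl, Finset.mem_image]
    constructor
    · rintro h' ⟨e, he, rfl⟩
      exact h' e he rfl
    · rintro h' e he rfl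
      exact h' ⟨e, he, rfl⟩
  rw [h2, ← h1, add_comm, Finset.card_add_card_compl]

lemma isM_insert {σ : Finset (P × H)} (h : IsM σ) {i : P} {j : H} (hi : i ∈ freeP σ)
    (hj : j ∈ freeH σ) : IsM (insert (i, j) σ) := by
  intro e he f hf hef
  rw [Finset.mem_insert] at he hf
  rw [mem_freeP] at hi
  rw [mem_freeH] at hj
  rcases he with rfl | he <;> rcases hf with rfl | hf
  · rfl
  · rcases hef with h' | h'
    · exact absurd h'.symm (hi f hf)
    · exact absurd h'.symm (hj f hf)
  · rcases hef with h' | h'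
    · exact absurd h' (hi e he)
    · exact absurd h' (hj e he)
  · exact h e he f hf hef

/-- Cover one more pigeon, avoiding some holes. -/
lemma cover_pigeon {β : Finset (P × H)} (h : IsM β) (i : P) (B : Finset H)
    (hr : β.card + B.card < Fintype.card H) :
    ∃ β', β ⊆ β' ∧ IsM β' ∧ (∃ e ∈ β', e.1 = i) ∧ β'.card ≤ β.card + 1 ∧
      ∀ e ∈ β', e ∈ β ∨ (e.1 = i ∧ e.2 ∉ B) := by
  by_cases hi : ∃ e ∈ β, e.1 = i
  · exact ⟨β, subset_rfl, h, hi, Nat.le_succ _, fun e he => Or.inl he⟩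
  · push Not at hi
    have hex : ((freeH β) \ B).Nonempty := by
      rw [← Finset.card_pos]
      have h1 := Finset.le_card_sdiff B (freeH β)
      have h2 := card_freeH h
      omega
    obtain ⟨j, hj⟩ := hex
    rw [Finset.mem_sdiff] at hj
    refine ⟨insert (i, j) β, Finset.subset_insert _ _, isM_insert h (mem_freeP.2 hi) hj.1,
      ⟨(i, j), Finset.mem_insert_self _ _, rfl⟩, Finset.card_insert_le _ _, ?_⟩
    intro e he
    rw [Finset.mem_insert] at he
    rcases he with rfl | he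
    · exact Or.inr ⟨rfl, hj.2⟩
    · exact Or.inl he

/-- Cover one more hole. -/
lemma cover_hole {β : Finset (P × H)} (h : IsM β) (j : H) (hr : β.card < Fintype.card P) :
    ∃ β', β ⊆ β' ∧ IsM β' ∧ (∃ e ∈ β', e.2 = j) ∧ β'.card ≤ β.card + 1 := by
  by_cases hj : ∃ e ∈ β, e.2 = j
  · exact ⟨β, subset_rfl, h, hj, Nat.le_succ _⟩
  · push Not at hj
    have hex : (freeP β).Nonempty := by
      rw [← Finset.card_pos]
      have h2 := card_freeP h
      omega
    obtain ⟨i, hi⟩ := hex
    exact ⟨insert (i, j) β, Finset.subset_insert _ _, isM_insert h hi (mem_freeH.2 hj),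
      ⟨(i, j), Finset.mem_insert_self _ _, rfl⟩, Finset.card_insert_le _ _⟩

/-- Cover all pigeons and holes of a set of pairs. -/
lemma cover_all {β : Finset (P × H)} (h : IsM β) (A : Finset (P × H))
    (hrP : β.card + 2 * A.card ≤ Fintype.card P) (hrH : β.card + 2 * A.card ≤ Fintype.card H) :
    ∃ β', β ⊆ β' ∧ IsM β' ∧ (∀ a ∈ A, (∃ e ∈ β', e.1 = a.1) ∧ ∃ e ∈ β', e.2 = a.2) ∧
      β'.card ≤ β.card + 2 * A.card := by
  induction A using Finset.induction_on with
  | empty => exact ⟨β, subset_rfl, h, fun a ha => absurd ha (Finset.notMem_empty a), by simp⟩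
  | insert a A ha ih =>
    rw [Finset.card_insert_of_notMem ha] at hrP hrH ⊢
    obtain ⟨β₁, h1, h2, h3, h4⟩ := ih (by omega) (by omega)
    obtain ⟨β₂, k1, k2, k3, k4, _⟩ := cover_pigeon h2 a.1 ∅ (by rw [Finset.card_empty]; omega)
    obtain ⟨β₃, l1, l2, l3, l4⟩ := cover_hole k2 a.2 (by omega)
    refine ⟨β₃, (h1.trans k1).trans l1, l2, ?_, by omega⟩
    intro b hb
    rw [Finset.mem_insert] at hb
    rcases hb with rfl | hb
    · obtain ⟨e, he, he'⟩ := k3
      exact ⟨⟨e, l1 he, he'⟩, l3⟩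
    · obtain ⟨⟨e, he, he'⟩, ⟨f, hf, hf'⟩⟩ := h3 b hb
      exact ⟨⟨e, l1 (k1 he), he'⟩, ⟨f, l1 (k1 hf), hf'⟩⟩

/-! ## Runs -/

/-- first member of the list compatible with `σ` -/
noncomputable def fstC (L : List (Finset (P × H))) (σ : Finset (P × H)) : Option (Finset (P × H)) :=
  L.find? fun π => decide (IsM (σ ∪ π))

/-- `ν` answers the queries of all vertices of `A` -/
def Ans (σ A ν : Finset (P × H)) : Prop :=
  IsM (σ ∪ ν) ∧ Disjoint σ ν ∧ (∀ a ∈ A, (∃ e ∈ ν, e.1 = a.1) ∧ ∃ e ∈ ν, e.2 = a.2) ∧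
    ∀ e ∈ ν, ∃ a ∈ A, e.1 = a.1 ∨ e.2 = a.2

/-- runs from `σ`, encoded by the matching `μ` -/
inductive Enc (L : List (Finset (P × H))) : ℕ → Finset (P × H) → Finset (P × H) → Prop
  | nil (σ : Finset (P × H)) : Enc L 0 σ σ
  | step {j : ℕ} {σ π ν μ : Finset (P × H)} (h1 : fstC L σ = some π) (h2 : (π \ σ).Nonempty)
      (h3 : Ans σ (π \ σ) ν) (h4 : Enc L j (σ ∪ ν) μ) :
      Enc L (j + (π \ σ).card) σ ((μ \ ν) ∪ (π \ σ))

lemma fstC_some {L : List (Finset (P × H))} {σ π : Finset (P × H)} (h : fstC L σ = some π) :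
    π ∈ L ∧ IsM (σ ∪ π) := by
  refine ⟨List.mem_of_find?_eq_some h, ?_⟩
  have := List.find?_some h
  simpa using this

lemma fstC_none {L : List (Finset (P × H))} {σ : Finset (P × H)} :
    fstC L σ = none ↔ ∀ π ∈ L, ¬ IsM (σ ∪ π) := by
  unfold fstC
  rw [List.find?_eq_none]
  simp

lemma fstC_mono {L : List (Finset (P × H))} {σ μ π : Finset (P × H)} (h : fstC L σ = some π)
    (hs : σ ⊆ μ) (hπ : IsM (μ ∪ π)) : fstC L μ = some π := by
  unfold fstC at h ⊢
  induction L with
  | nil => simp at h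
  | cons a L ih =>
    rw [List.find?_cons] at h ⊢
    by_cases ha : IsM (σ ∪ a)
    · have : a = π := by simpa [ha] using h
      subst this
      simp [hπ]
    · have ha' : ¬ IsM (μ ∪ a) := fun h' => ha (h'.mono (Finset.union_subset_union_left hs))
      simp only [ha, decide_false, ha'] at h ⊢
      exact ih h

/-- two pairs of `σ ∪ π` with one in `σ` and the other not do not touch -/
lemma not_touch {σ A : Finset (P × H)} (h : IsM (σ ∪ A)) {e a : P × H} (he : e ∈ σ) (ha : a ∈ A)
    (ha' : a ∉ σ) : e.1 ≠ a.1 ∧ e.2 ≠ a.2 := by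
  constructor
  · intro h'
    have := h e (Finset.mem_union_left _ he) a (Finset.mem_union_right _ ha) (Or.inl h')
    exact ha' (this ▸ he)
  · intro h'
    have := h e (Finset.mem_union_left _ he) a (Finset.mem_union_right _ ha) (Or.inr h')
    exact ha' (this ▸ he)

lemma Ans.card_le {σ A ν : Finset (P × H)} (h : Ans σ A ν) : ν.card ≤ 2 * A.card := by
  obtain ⟨h1, h2, h3, h4⟩ := h
  have hν : IsM ν := h1.mono Finset.subset_union_right
  have hsub : ν ⊆ (ν.filter fun e => e.1 ∈ A.image Prod.fst) ∪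
      (ν.filter fun e => e.2 ∈ A.image Prod.snd) := by
    intro e he
    obtain ⟨a, ha, h | h⟩ := h4 e he
    · exact Finset.mem_union_left _ (Finset.mem_filter.2 ⟨he, Finset.mem_image.2 ⟨a, ha, h.symm⟩⟩)
    · exact Finset.mem_union_right _ (Finset.mem_filter.2 ⟨he, Finset.mem_image.2 ⟨a, ha, h.symm⟩⟩)
  have e1 : (ν.filter fun e => e.1 ∈ A.image Prod.fst).card ≤ A.card := by
    refine le_trans (Finset.card_le_card_of_injOn Prod.fst (t := A.image Prod.fst)
      (fun e he => (Finset.mem_filter.1 he).2) ?_) Finset.card_image_le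
    intro e he f hf hef
    exact hν e (Finset.mem_filter.1 he).1 f (Finset.mem_filter.1 hf).1 (Or.inl hef)
  have e2 : (ν.filter fun e => e.2 ∈ A.image Prod.snd).card ≤ A.card := by
    refine le_trans (Finset.card_le_card_of_injOn Prod.snd (t := A.image Prod.snd)
      (fun e he => (Finset.mem_filter.1 he).2) ?_) Finset.card_image_le
    intro e he f hf hef
    exact hν e (Finset.mem_filter.1 he).1 f (Finset.mem_filter.1 hf).1 (Or.inr hef)
  have := (Finset.card_le_card hsub).trans (Finset.card_union_le _ _)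
  omega

lemma Ans.le_card {σ A ν : Finset (P × H)} (hA : IsM A) (h : Ans σ A ν) : A.card ≤ ν.card := by
  have h1 : (A.image Prod.fst).card = A.card :=
    Finset.card_image_of_injOn fun e he f hf hef => hA e he f hf (Or.inl hef)
  have h2 : A.image Prod.fst ⊆ ν.image Prod.fst := by
    intro i hi
    obtain ⟨a, ha, rfl⟩ := Finset.mem_image.1 hi
    obtain ⟨e, he, he'⟩ := (h.2.2.1 a ha).1
    exact Finset.mem_image.2 ⟨e, he, he'⟩
  rw [← h1]
  exact (Finset.card_le_card h2).trans Finset.card_image_le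

/-- the data of a step -/
lemma step_facts {σ A ν μ : Finset (P × H)} (hA : IsM (σ ∪ A)) (hAσ : Disjoint A σ)
    (hν : Ans σ A ν) (h1 : σ ∪ ν ⊆ μ) (h2 : IsM μ) :
    IsM ((μ \ ν) ∪ A) ∧ Disjoint (μ \ ν) A ∧ σ ⊆ (μ \ ν) ∪ A ∧
      ((μ \ ν) ∪ A).card + ν.card = μ.card + A.card ∧ (((μ \ ν) ∪ A) \ A) ∪ ν = μ := by
  have hνμ : ν ⊆ μ := Finset.subset_union_right.trans h1
  have htouch : ∀ e ∈ μ \ ν, ∀ a ∈ A, e.1 ≠ a.1 ∧ e.2 ≠ a.2 := by
    intro e he a ha
    rw [Finset.mem_sdiff] at he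
    obtain ⟨⟨f, hf, hf'⟩, ⟨g, hg, hg'⟩⟩ := hν.2.2.1 a ha
    constructor
    · intro h'
      have := h2 e he.1 f (hνμ hf) (Or.inl (h'.trans hf'.symm))
      exact he.2 (this ▸ hf)
    · intro h'
      have := h2 e he.1 g (hνμ hg) (Or.inr (h'.trans hg'.symm))
      exact he.2 (this ▸ hg)
  have hdisj : Disjoint (μ \ ν) A := by
    rw [Finset.disjoint_left]
    intro e he ha
    exact (htouch e he e ha).1 rfl
  refine ⟨?_, hdisj, ?_, ?_, ?_⟩
  · intro e he f hf hef
    rw [Finset.mem_union] at he hf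
    rcases he with he | he <;> rcases hf with hf | hf
    · exact h2 e (Finset.mem_sdiff.1 he).1 f (Finset.mem_sdiff.1 hf).1 hef
    · exfalso
      have := htouch e he f hf
      rcases hef with h | h
      · exact this.1 h
      · exact this.2 h
    · exfalso
      have := htouch f hf e he
      rcases hef with h | h
      · exact this.1 h.symm
      · exact this.2 h.symm
    · exact hA e (Finset.mem_union_right _ he) f (Finset.mem_union_right _ hf) hef
  · intro e he
    refine Finset.mem_union_left _ (Finset.mem_sdiff.2 ⟨h1 (Finset.mem_union_left _ he), ?_⟩)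
    exact fun h => Finset.disjoint_left.1 hν.2.1 he h
  · rw [Finset.card_union_of_disjoint hdisj, Finset.card_sdiff_of_subset hνμ]
    have := Finset.card_le_card hνμ
    omega
  · rw [Finset.union_sdiff_right, Finset.sdiff_eq_self_of_disjoint hdisj,
      Finset.sdiff_union_of_subset hνμ]

lemma Enc.facts {L : List (Finset (P × H))} {j : ℕ} {σ μ : Finset (P × H)} (h : Enc L j σ μ)
    (hσ : IsM σ) : σ ⊆ μ ∧ IsM μ ∧ μ.card = σ.card + j := by
  induction h with
  | nil σ => exact ⟨subset_rfl, hσ, rfl⟩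
  | @step j σ π ν μ h1 h2 h3 h4 ih =>
    obtain ⟨i1, i2, i3⟩ := ih h3.1
    obtain ⟨hπ, hπσ⟩ := fstC_some h1
    have hA : IsM (σ ∪ (π \ σ)) := hπσ.mono (by
      rw [Finset.union_sdiff_self_eq_union])
    obtain ⟨s1, s2, s3, s4, s5⟩ := step_facts hA Finset.sdiff_disjoint h3 i1 i2
    refine ⟨s3, s1, ?_⟩
    rw [Finset.card_union_of_disjoint h3.2.1] at i3
    omega

end Pool.Agent.Work.MP_c109c8_lc
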