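import Pool.Agent.Work.MP_c109c8_lc.Adv
import Pool.Agent.Work.MP_c109c8_lc.Defs

/-!
# Sequents as DNFs, and the substitution reducing `PHP_n^{n+B}` to `PHP_t^{t+1}`
-/

set_option autoImplicit false
set_option linter.unusedSectionVars false

open Classical

namespace Pool.Agent.Work.MP_c109c8_lc

section seq

variable {V : Type}

/-- negation of a literal -/
def negL (l : V × Bool) : V × Bool := (l.1, !l.2)

/-- a formula as a DNF -/
noncomputable def Fml.pos : Fml V → DNF V
  | .clause c => c.image fun l => {l}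
  | .conj c => {c}

/-- the negation of a formula as a DNF -/
noncomputable def Fml.neg : Fml V → DNF V
  | .clause c => {c.image negL}
  | .conj c => c.image fun l => {negL l}

lemma Fml.holds_pos (a : V → Bool) (φ : Fml V) : DHolds a φ.pos ↔ φ.Holds a := by
  cases φ with
  | clause c =>
    constructor
    · rintro ⟨τ, hτ, h⟩
      obtain ⟨l, hl, rfl⟩ := Finset.mem_image.1 hτ
      exact ⟨l, hl, h l (Finset.mem_singleton_self _)⟩
    · rintro ⟨l, hl, h⟩
      refine ⟨{l}, Finset.mem_image_of_mem _ hl, fun l' hl' => ?_⟩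
      rw [Finset.mem_singleton.1 hl']
      exact h
  | conj c => simp [Fml.pos, Fml.Holds, DHolds]

lemma negL_holds (a : V → Bool) (l : V × Bool) : a (negL l).1 = (negL l).2 ↔ ¬ a l.1 = l.2 := by
  unfold negL
  cases a l.1 <;> cases l.2 <;> simp

lemma Fml.holds_neg (a : V → Bool) (φ : Fml V) : DHolds a φ.neg ↔ ¬ φ.Holds a := by
  cases φ with
  | clause c =>
    simp only [Fml.neg, Fml.Holds, DHolds, Finset.mem_singleton, exists_eq_left,
      Finset.forall_mem_image, negL_holds]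
    push Not
    rfl
  | conj c =>
    simp only [Fml.neg, Fml.Holds, DHolds, Finset.exists_mem_image,
      Finset.mem_singleton, forall_eq, negL_holds]
    push Not
    rfl

lemma Fml.pos_width {k : ℕ} {φ : Fml V} (h : φ.width ≤ k) : ∀ τ ∈ φ.pos, τ.card ≤ k := by
  cases φ with
  | clause c =>
    intro τ hτ
    obtain ⟨l, hl, rfl⟩ := Finset.mem_image.1 hτ
    rw [Finset.card_singleton]
    exact (Finset.card_pos.2 ⟨l, hl⟩).trans_le h
  | conj c =>
    intro τ hτ
    rw [Finset.mem_singleton.1 hτ]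
    exact h

lemma Fml.neg_width {k : ℕ} {φ : Fml V} (h : φ.width ≤ k) : ∀ τ ∈ φ.neg, τ.card ≤ k := by
  cases φ with
  | clause c =>
    intro τ hτ
    rw [Finset.mem_singleton.1 hτ]
    exact Finset.card_image_le.trans h
  | conj c =>
    intro τ hτ
    obtain ⟨l, hl, rfl⟩ := Finset.mem_image.1 hτ
    rw [Finset.card_singleton]
    exact (Finset.card_pos.2 ⟨l, hl⟩).trans_le h

/-- a sequent as a DNF -/
noncomputable def Sequent.dnf (s : Sequent V) : DNF V :=
  (s.ante.toFinset.biUnion Fml.neg) ∪ s.succ.toFinset.biUnion Fml.pos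

lemma Sequent.holds_dnf (a : V → Bool) (s : Sequent V) :
    DHolds a s.dnf ↔ s.Holds a := by
  constructor
  · rintro ⟨τ, hτ, h⟩ hante
    rw [Sequent.dnf, Finset.mem_union, Finset.mem_biUnion, Finset.mem_biUnion] at hτ
    rcases hτ with ⟨φ, hφ, hτ⟩ | ⟨φ, hφ, hτ⟩
    · exfalso
      rw [List.mem_toFinset] at hφ
      exact (Fml.holds_neg a φ).1 ⟨τ, hτ, h⟩ (hante φ hφ)
    · rw [List.mem_toFinset] at hφ
      exact ⟨φ, hφ, (Fml.holds_pos a φ).1 ⟨τ, hτ, h⟩⟩
  · intro h
    by_cases hante : ∀ φ ∈ s.ante, φ.Holds a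
    · obtain ⟨φ, hφ, h'⟩ := h hante
      obtain ⟨τ, hτ, h''⟩ := (Fml.holds_pos a φ).2 h'
      exact ⟨τ, Finset.mem_union_right _ (Finset.mem_biUnion.2
        ⟨φ, List.mem_toFinset.2 hφ, hτ⟩), h''⟩
    · push Not at hante
      obtain ⟨φ, hφ, h'⟩ := hante
      obtain ⟨τ, hτ, h''⟩ := (Fml.holds_neg a φ).2 h'
      exact ⟨τ, Finset.mem_union_left _ (Finset.mem_biUnion.2
        ⟨φ, List.mem_toFinset.2 hφ, hτ⟩), h''⟩

lemma Sequent.dnf_width {k : ℕ} {s : Sequent V} (h : s.Narrow k) : ∀ τ ∈ s.dnf, τ.card ≤ k := by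
  intro τ hτ
  rw [Sequent.dnf, Finset.mem_union, Finset.mem_biUnion, Finset.mem_biUnion] at hτ
  rcases hτ with ⟨φ, hφ, hτ⟩ | ⟨φ, hφ, hτ⟩
  · exact Fml.neg_width (h.1 φ (List.mem_toFinset.1 hφ)) τ hτ
  · exact Fml.pos_width (h.2 φ (List.mem_toFinset.1 hφ)) τ hτ

end seq

section subst

variable {V W : Type} [Fintype W]

/-- substitution in a term -/
noncomputable def substTerm (f : V → W ⊕ Bool) (τ : Finset (V × Bool)) : Finset (W × Bool) :=
  Finset.univ.filter fun l' => ∃ l ∈ τ, f l.1 = Sum.inl l'.1 ∧ l.2 = l'.2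

/-- substitution of variables and constants in a DNF -/
noncomputable def subst (f : V → W ⊕ Bool) (D : DNF V) : DNF W :=
  (D.filter fun τ => ∀ l ∈ τ, f l.1 ≠ Sum.inr (!l.2)).image (substTerm f)

/-- the assignment of the old variables -/
def pull (f : V → W ⊕ Bool) (a : W → Bool) : V → Bool := fun v => Sum.elim a id (f v)

lemma holds_subst (f : V → W ⊕ Bool) (a : W → Bool) (D : DNF V) :
    DHolds a (subst f D) ↔ DHolds (pull f a) D := by
  constructor
  · rintro ⟨τ', hτ', h⟩
    obtain ⟨τ, hτ, rfl⟩ := Finset.mem_image.1 hτ'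
    rw [Finset.mem_filter] at hτ
    refine ⟨τ, hτ.1, fun l hl => ?_⟩
    have h1 := hτ.2 l hl
    unfold pull
    rcases hf : f l.1 with w | c
    · exact h (w, l.2) (Finset.mem_filter.2 ⟨Finset.mem_univ _, l, hl, hf, rfl⟩)
    · rw [hf] at h1
      have h2 : c ≠ !l.2 := fun h => h1 (by rw [h])
      simp only [Sum.elim_inr, id]
      cases c <;> cases h3 : l.2 <;> simp_all
  · rintro ⟨τ, hτ, h⟩
    refine ⟨substTerm f τ, Finset.mem_image.2 ⟨τ, Finset.mem_filter.2 ⟨hτ, ?_⟩, rfl⟩, ?_⟩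
    · intro l hl hf
      have := h l hl
      rw [pull, hf] at this
      simp only [Sum.elim_inr, id] at this
      cases h3 : l.2 <;> simp_all
    · intro l' hl'
      obtain ⟨-, l, hl, hf, h3⟩ := Finset.mem_filter.1 hl'
      have := h l hl
      rw [pull, hf] at this
      rw [← h3, ← this]
      rfl

lemma subst_width {f : V → W ⊕ Bool} {D : DNF V} {k : ℕ} (h : ∀ τ ∈ D, τ.card ≤ k) :
    ∀ τ ∈ subst f D, τ.card ≤ k := by
  intro τ' hτ'
  obtain ⟨τ, hτ, rfl⟩ := Finset.mem_image.1 hτ'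
  rw [Finset.mem_filter] at hτ
  refine le_trans ?_ (h τ hτ.1)
  have h1 : ∀ l' : substTerm f τ, ∃ l : τ, f l.1.1 = Sum.inl l'.1.1 ∧ l.1.2 = l'.1.2 := by
    intro l'
    obtain ⟨-, l, hl, hf⟩ := Finset.mem_filter.1 l'.2
    exact ⟨⟨l, hl⟩, hf⟩
  choose g hg1 hg2 using h1
  have hinj : Function.Injective g := by
    intro x y hxy
    have e1 := hg1 x
    have e2 := hg2 x
    rw [hxy, hg1 y] at e1
    rw [hxy, hg2 y] at e2
    exact Subtype.ext (Prod.ext (Sum.inl_injective e1).symm e2.symm)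
  have := Fintype.card_le_of_injective g hinj
  rwa [Fintype.card_coe, Fintype.card_coe] at this

end subst

lemma asg_eq_true {P H : Type} [Fintype P] [Fintype H] {σ : Finset (P × H)} {v : P × H} :
    asg σ v = true ↔ v ∈ σ := by
  simp [asg]

section reduction

variable {m n B t r₀ : ℕ}

/-- The substitution of the variables of `PHP_n^m`. -/
def red (eP : Fin m ≃ (Fin B × Fin (t + 1)) ⊕ Fin r₀) (eH : Fin n ≃ (Fin B × Fin t) ⊕ Fin r₀) :
    Fin m × Fin n → (Fin (t + 1) × Fin t) ⊕ Bool := fun v =>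
  match eP v.1, eH v.2 with
  | Sum.inl x, Sum.inl y => if x.1 = y.1 then Sum.inl (x.2, y.2) else Sum.inr false
  | Sum.inr u, Sum.inr v => if u = v then Sum.inr true else Sum.inr false
  | Sum.inl _, Sum.inr _ => Sum.inr false
  | Sum.inr _, Sum.inl _ => Sum.inr false

lemma axOK_of_php {eP : Fin m ≃ (Fin B × Fin (t + 1)) ⊕ Fin r₀}
    {eH : Fin n ≃ (Fin B × Fin t) ⊕ Fin r₀} {C : Fml (Fin m × Fin n)} (hC : IsPHPClause m n C)
    {σ : Finset (Fin (t + 1) × Fin t)} (hσ : IsM σ) (hc : σ.card < t) :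
    ∃ β, σ ⊆ β ∧ IsM β ∧ β.card ≤ σ.card + 1 ∧ C.Holds (pull (red eP eH) (asg β)) := by
  rcases hC with ⟨p, rfl⟩ | ⟨p, p', h, hpp, rfl⟩
  · rcases hp : eP p with ⟨b, i⟩ | u
    · obtain ⟨β, h1, h2, ⟨e, he, hei⟩, h4, -⟩ := cover_pigeon hσ i ∅ (by
        rw [Finset.card_empty, Fintype.card_fin]; omega)
      refine ⟨β, h1, h2, h4, ((p, eH.symm (Sum.inl (b, e.2))), true), ?_, ?_⟩
      · exact Finset.mem_image.2 ⟨_, Finset.mem_univ _, rfl⟩
      · have : red eP eH (p, eH.symm (Sum.inl (b, e.2))) = Sum.inl (i, e.2) := by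
          simp [red, hp]
        simp only [pull, this, Sum.elim_inl]
        rw [asg_eq_true, ← hei]
        exact he
    · refine ⟨σ, subset_rfl, hσ, Nat.le_succ _, ((p, eH.symm (Sum.inr u)), true), ?_, ?_⟩
      · exact Finset.mem_image.2 ⟨_, Finset.mem_univ _, rfl⟩
      · have : red eP eH (p, eH.symm (Sum.inr u)) = Sum.inr true := by
          simp [red, hp]
        simp only [pull, this, Sum.elim_inr, id]
  · refine ⟨σ, subset_rfl, hσ, Nat.le_succ _, ?_⟩
    by_contra hno
    have h1 : pull (red eP eH) (asg σ) (p, h) = true := by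
      by_contra h1
      exact hno ⟨((p, h), false), by simp, by simpa using h1⟩
    have h2 : pull (red eP eH) (asg σ) (p', h) = true := by
      by_contra h2
      exact hno ⟨((p', h), false), by simp, by simpa using h2⟩
    apply hpp
    apply eP.injective
    rcases hp : eP p with ⟨b, i⟩ | u <;> rcases hp' : eP p' with ⟨b', i'⟩ | u' <;>
      rcases hh : eH h with ⟨c, j⟩ | v <;>
      simp only [pull, red, hp, hp', hh, Sum.elim_inr, id, Bool.false_eq_true] at h1 h2
    · split_ifs at h1 h2 with hb hb'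
      · simp only [Sum.elim_inl, asg_eq_true] at h1 h2
        have h3 := hσ _ h1 _ h2 (Or.inr rfl)
        have h4 : i = i' := congrArg Prod.fst h3
        rw [h4, hb, hb']
      all_goals simp at h1 h2
    · split_ifs at h1 h2 with hb hb'
      · rw [hb, hb']
      all_goals simp at h1 h2

end reduction

/-- **The lower bound for `PHP_n^m`, parametric form.** -/
theorem lower {m n k r S t l s s₀ : ℕ} (hnm : n < m) (ht : t = n / (m - n))
    (hl : 1 ≤ l) (hs₀ : s₀ + l = t)
    (hC : 2 * (2 * (k * (l + 1) ^ 2)) * ((l + 1) * l) ≤ s₀ + 1)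
    (hroom : 2 * s * (r + 1) + 2 * k + 2 ≤ l) (R : NarrowRefutation m n k r S) :
    2 ^ s ≤ 2 * S := by
  set B := m - n with hB
  have hBpos : 0 < B := by omega
  have hn : n = B * t + n % B := by
    rw [ht]; exact (Nat.div_add_mod n B).symm
  have hcP : Fintype.card (Fin m) = Fintype.card ((Fin B × Fin (t + 1)) ⊕ Fin (n % B)) := by
    simp only [Fintype.card_fin, Fintype.card_sum, Fintype.card_prod]
    rw [Nat.mul_succ]
    omega
  have hcH : Fintype.card (Fin n) = Fintype.card ((Fin B × Fin t) ⊕ Fin (n % B)) := by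
    simp only [Fintype.card_fin, Fintype.card_sum, Fintype.card_prod]
    exact hn
  let eP := Fintype.equivOfCardEq hcP
  let eH := Fintype.equivOfCardEq hcH
  refine core (P := Fin (t + 1)) (H := Fin t) (Fintype.card_fin _) (Fintype.card_fin _) hl hs₀ hC
    hroom (fun i => subst (red eP eH) (R.line i).dnf)
    (fun i => subst_width (Sequent.dnf_width (R.narrow i))) ?_ ?_
  · intro i
    rcases R.infer i with ⟨C, hC, himp⟩ | ⟨prem, h1, h2, h3⟩
    · left
      intro σ hσ hc
      rw [Fintype.card_fin] at hc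
      obtain ⟨β, b1, b2, b3, b4⟩ := axOK_of_php (eP := eP) (eH := eH) hC hσ hc
      refine ⟨β, b1, b2, b3, ?_⟩
      rw [holds_subst, Sequent.holds_dnf]
      exact himp _ b4
    · right
      refine ⟨prem, h1, h2, fun a ha => ?_⟩
      rw [holds_subst, Sequent.holds_dnf]
      refine h3 _ fun p hp => ?_
      have := ha p hp
      rwa [holds_subst, Sequent.holds_dnf] at this
  · obtain ⟨i, hi⟩ := R.contr
    refine ⟨i, fun a ha => hi (pull (red eP eH) a) ?_⟩
    rwa [holds_subst, Sequent.holds_dnf] at ha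

end Pool.Agent.Work.MP_c109c8_lc
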